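import Mathlib

/-!
# The list `L` of `s`-spanning pairs in `ℤ₂ × ℤ₂ₖ` is incomplete for every `s ≥ 5`
-/

namespace Pool.Agent.Results.MP_26ecb3_co.QuadraticRange

/-- The signed sumset `[0, s]_± A`: all `∑ λ_a a` with integers `λ_a` and `∑ |λ_a| ≤ s`. -/
def SignedSumset {G : Type*} [AddCommGroup G] (s : ℕ) (A : Finset G) : Set G :=
  {g | ∃ c : G → ℤ, ∑ a ∈ A, |c a| ≤ (s : ℤ) ∧ ∑ a ∈ A, c a • a = g}

/-- `φ_±(G, [0, s])`: the least size of a set `A` with `[0, s]_± A = G`. -/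
noncomputable def phi (G : Type*) [AddCommGroup G] (s : ℕ) : ℕ :=
  sInf {m | ∃ A : Finset G, A.card = m ∧ SignedSumset s A = Set.univ}

/-- The set `L` of pairs `(s, k)` of the problem. -/
def L (s k : ℕ) : Prop :=
  (s = 2 ∧ (k = 1 ∨ k = 2)) ∨ (s = 3 ∧ (k = 1 ∨ k = 2 ∨ k = 3 ∨ k = 4)) ∨
  (s = 4 ∧ (k = 1 ∨ k = 2 ∨ k = 3 ∨ k = 4 ∨ k = 5 ∨ k = 6 ∨ k = 8)) ∨
  (5 ≤ s ∧ 1 ≤ k ∧ k ≤ 3 * s - 4)

theorem mono {G : Type*} [AddCommGroup G] {s t : ℕ} (h : s ≤ t) (A : Finset G)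
    (hA : SignedSumset s A = Set.univ) : SignedSumset t A = Set.univ := by
  rw [Set.eq_univ_iff_forall] at hA ⊢
  intro g
  obtain ⟨c, h1, h2⟩ := hA g
  exact ⟨c, h1.trans (by exact_mod_cast h), h2⟩

/-- A pair spans as soon as every element is `i a + j b` with `|i| + |j| ≤ s`. -/
theorem pair_spans {G : Type*} [AddCommGroup G] [DecidableEq G] {s : ℕ} {a b : G} (hab : a ≠ b)
    (h : ∀ g : G, ∃ i j : ℤ, |i| + |j| ≤ (s : ℤ) ∧ i • a + j • b = g) :
    SignedSumset s ({a, b} : Finset G) = Set.univ := by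
  rw [Set.eq_univ_iff_forall]
  intro g
  obtain ⟨i, j, h1, h2⟩ := h g
  refine ⟨fun x => if x = a then i else j, ?_, ?_⟩
  · rw [Finset.sum_pair hab]
    simpa [hab.symm] using h1
  · rw [Finset.sum_pair hab]
    simpa [hab.symm] using h2

/-- No set with at most one element spans `ℤ₂ × ℤ₂ₖ`. -/
theorem two_le {s k : ℕ} (A : Finset (ZMod 2 × ZMod (2 * k)))
    (hA : SignedSumset s A = Set.univ) : 2 ≤ A.card := by
  by_contra hlt
  have h1 : A.card ≤ 1 := by omega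
  rw [Finset.card_le_one_iff_subset_singleton] at h1
  obtain ⟨a, ha⟩ := h1
  rw [Set.eq_univ_iff_forall] at hA
  have hmul : ∀ g, ∃ c : ℤ, c • a = g := by
    intro g
    obtain ⟨c, -, h2⟩ := hA g
    rcases Finset.subset_singleton_iff.mp ha with h | h
    · refine ⟨0, ?_⟩
      rw [h] at h2
      simpa using h2
    · refine ⟨c a, ?_⟩
      rw [h] at h2
      simpa using h2
  obtain ⟨c, hc⟩ := hmul (1, 0)
  obtain ⟨d, hd⟩ := hmul (0, 1)
  have hc1 : (c : ZMod 2) * a.1 = 1 := by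
    have := congrArg Prod.fst hc
    simpa using this
  have hd1 : (d : ZMod 2) * a.1 = 0 := by
    have := congrArg Prod.fst hd
    simpa using this
  have hd2 : (d : ZMod (2 * k)) * a.2 = 1 := by
    have := congrArg Prod.snd hd
    simpa using this
  have hx : a.1 ≠ 0 := by
    intro h0
    rw [h0, mul_zero] at hc1
    exact zero_ne_one hc1
  have : Fact (Nat.Prime 2) := ⟨Nat.prime_two⟩
  have hd0 : (d : ZMod 2) = 0 := by
    rcases mul_eq_zero.mp hd1 with h | h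
    · exact h
    · exact absurd h hx
  have h3 := congrArg (ZMod.castHom (dvd_mul_right 2 k) (ZMod 2)) hd2
  rw [map_mul, map_intCast, hd0, zero_mul, map_one] at h3
  exact zero_ne_one h3

theorem phi_eq_two {s k : ℕ} {a b : ZMod 2 × ZMod (2 * k)} (hab : a ≠ b)
    (h : ∀ g, ∃ i j : ℤ, |i| + |j| ≤ (s : ℤ) ∧ i • a + j • b = g) :
    phi (ZMod 2 × ZMod (2 * k)) s = 2 := by
  have hmem : (2 : ℕ) ∈ {m | ∃ A : Finset (ZMod 2 × ZMod (2 * k)), A.card = m ∧
      SignedSumset s A = Set.univ} :=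
    ⟨{a, b}, Finset.card_pair hab, pair_spans hab h⟩
  apply le_antisymm
  · exact Nat.sInf_le hmem
  · obtain ⟨A, h1, h2⟩ := Nat.sInf_mem ⟨2, hmem⟩
    have := two_le A h2
    unfold phi
    omega

/-- For `s = 2 t` every element of `ℤ₂ × ℤ_{s²}` is `i (0, 1) + j (1, s - 1)` with
`|i| + |j| ≤ s`. -/
theorem even_spans (t n : ℕ) (ht : 0 < t) (hn : n = 4 * t * t) (g : ZMod 2 × ZMod n) :
    ∃ i j : ℤ, |i| + |j| ≤ ((2 * t : ℕ) : ℤ) ∧
      i • ((0, 1) : ZMod 2 × ZMod n)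
        + j • ((1, ((2 * t - 1 : ℤ) : ZMod n)) : ZMod 2 × ZMod n) = g := by
  have hnpos : 0 < n := by rw [hn]; positivity
  have : NeZero n := ⟨hnpos.ne'⟩
  have htz : (0 : ℤ) < t := by exact_mod_cast ht
  have hnz : (n : ℤ) = 4 * t * t := by rw [hn]; push_cast; ring
  -- the parity `e`
  obtain ⟨e, he01, he⟩ : ∃ e : ℤ, (e = 0 ∨ e = 1) ∧ ((e : ℤ) : ZMod 2) = g.1 := by
    rcases (by decide : ∀ x : ZMod 2, x = 0 ∨ x = 1) g.1 with h | h
    · exact ⟨0, Or.inl rfl, by rw [h]; simp⟩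
    · exact ⟨1, Or.inr rfl, by rw [h]; simp⟩
  -- a representative
  obtain ⟨r, hr0, hr1, hr⟩ : ∃ r : ℤ, 0 ≤ r ∧ r < 4 * t * t ∧
      (((r + 2 * t * (e - 1) : ℤ)) : ZMod n) = g.2 := by
    refine ⟨((g.2.val : ℤ) - 2 * t * (e - 1)) % n, Int.emod_nonneg _ (by positivity), ?_, ?_⟩
    · rw [← hnz]; exact Int.emod_lt_of_pos _ (by exact_mod_cast hnpos)
    · rw [Int.cast_add, ZMod.intCast_mod, ← Int.cast_add, sub_add_cancel, Int.cast_natCast,
        ZMod.natCast_zmod_val]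
  -- `r = 4 t q + w`
  obtain ⟨q, w, hw0, hw1, hq⟩ : ∃ q w : ℤ, 0 ≤ w ∧ w < 4 * t ∧ r = 4 * t * q + w :=
    ⟨r / (4 * t), r % (4 * t), Int.emod_nonneg _ (by positivity),
      Int.emod_lt_of_pos _ (by positivity), (Int.mul_ediv_add_emod r (4 * t)).symm⟩
  have hq0 : 0 ≤ q := by
    by_contra hneg
    have : q ≤ -1 := by omega
    nlinarith
  have hqt : q ≤ t - 1 := by
    by_contra hneg
    have : (t : ℤ) ≤ q := by omega
    nlinarith
  obtain ⟨j, hj⟩ : ∃ j : ℤ, j = e + 2 * q := ⟨_, rfl⟩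
  have hj0 : 0 ≤ j := by rcases he01 with h | h <;> omega
  have hj1 : j ≤ 2 * t - 1 := by rcases he01 with h | h <;> omega
  have hjpar : ((j : ℤ) : ZMod 2) = g.1 := by
    rw [hj, ← he]; push_cast
    have : (2 : ZMod 2) = 0 := by decide
    rw [this]; ring
  by_cases hcase : w ≤ 2 * (2 * t - j)
  · refine ⟨w - (2 * t - j), j, ?_, ?_⟩
    · rw [abs_of_nonneg hj0]
      have : |w - (2 * t - j)| ≤ 2 * t - j := by
        rw [abs_le]; constructor <;> linarith
      push_cast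
      linarith
    · apply Prod.ext
      · simp [hjpar]
      · have e1 : (w - (2 * t - j)) + j * (2 * t - 1) = r + 2 * t * (e - 1) := by
          rw [hq, hj]; ring
        rw [← hr, ← e1]
        simp
  · refine ⟨w + j - 4 * t, j - 2 * t, ?_, ?_⟩
    · push Not at hcase
      rw [abs_of_nonpos (by linarith : j - 2 * t ≤ 0)]
      have : |w + j - 4 * t| ≤ j := by
        rw [abs_le]; constructor <;> linarith
      push_cast
      linarith
    · apply Prod.ext
      · have h2 : (2 : ZMod 2) = 0 := by decide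
        have : (((j - 2 * t : ℤ)) : ZMod 2) = g.1 := by
          push_cast
          rw [hjpar, h2]; ring
        simpa using this
      · have e1 : (w + j - 4 * t) + (j - 2 * t) * (2 * t - 1)
            = r + 2 * t * (e - 1) - 4 * t * t := by
          rw [hq, hj]; ring
        have e2 : ((4 * t * t : ℤ) : ZMod n) = 0 := by
          rw [← hnz]; simp
        have e3 : ((((w + j - 4 * t) + (j - 2 * t) * (2 * t - 1) : ℤ)) : ZMod n) = g.2 := by
          rw [e1, Int.cast_sub, hr, e2, sub_zero]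
        rw [← e3]
        simp

theorem ne_pair (k : ℕ) (x y : ZMod (2 * k)) :
    ((0, x) : ZMod 2 × ZMod (2 * k)) ≠ (1, y) := by
  intro h
  have := congrArg Prod.fst h
  exact absurd this (by decide : ((0 : ZMod 2)) ≠ 1)

/-- For every `s ≥ 5` there is a `k > 3 s - 4` (so `(s, k) ∉ L`) with
`φ_±(ℤ₂ × ℤ₂ₖ, [0, s]) = 2`. -/
theorem result : ∀ s : ℕ, 5 ≤ s → ∃ k : ℕ, 0 < k ∧ ¬ L s k ∧
    phi (ZMod 2 × ZMod (2 * k)) s = 2 := by
  intro s hs
  rcases Nat.lt_or_ge s 6 with h6 | h6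
  · obtain rfl : s = 5 := by omega
    refine ⟨12, by norm_num, by unfold L; omega, ?_⟩
    apply phi_eq_two (a := (0, 3)) (b := (1, 2)) (ne_pair 12 _ _)
    have key : ∀ g : ZMod 2 × ZMod 24, ∃ i ∈ Finset.Icc (-5 : ℤ) 5, ∃ j ∈ Finset.Icc (-5 : ℤ) 5,
        |i| + |j| ≤ 5 ∧ i • ((0, 3) : ZMod 2 × ZMod 24) + j • ((1, 2) : ZMod 2 × ZMod 24) = g := by
      decide +kernel
    intro g
    obtain ⟨i, -, j, -, h⟩ := key g
    exact ⟨i, j, h⟩
  · rcases Nat.even_or_odd' s with ⟨t, rfl | rfl⟩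
    · have ht0 : 0 < t := by omega
      refine ⟨2 * t ^ 2, by positivity, ?_, ?_⟩
      · unfold L
        have : 3 * (2 * t) - 4 < 2 * t ^ 2 := by
          have h3 : 3 ≤ t := by omega
          zify [show 4 ≤ 3 * (2 * t) by omega]
          have h3' : (3 : ℤ) ≤ t := by exact_mod_cast h3
          nlinarith
        omega
      · exact phi_eq_two (ne_pair _ _ _) (even_spans t _ (by omega) (by ring))
    · have ht0 : 0 < t := by omega
      refine ⟨2 * t ^ 2, by positivity, ?_, ?_⟩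
      · unfold L
        have : 3 * (2 * t + 1) - 4 < 2 * t ^ 2 := by
          have h3 : 3 ≤ t := by omega
          zify [show 4 ≤ 3 * (2 * t + 1) by omega]
          have h3' : (3 : ℤ) ≤ t := by exact_mod_cast h3
          nlinarith
        omega
      · refine phi_eq_two (a := (0, 1)) (b := (1, ((2 * t - 1 : ℤ) : ZMod (2 * (2 * t ^ 2)))))
          (ne_pair _ _ _) (fun g => ?_)
        obtain ⟨i, j, h1, h2⟩ := even_spans t _ (by omega) (by ring) g
        exact ⟨i, j, h1.trans (by push_cast; linarith), h2⟩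

end Pool.Agent.Results.MP_26ecb3_co.QuadraticRange
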